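import Mathlib

/-!
Products of regular cardinals indexed by a set of size at most aleph one: small sets of indices.
-/

open Cardinal Ordinal Set

universe u

namespace Pool.Agent.Helper93.PCF

/-- regular cardinals which are at least `ℵ₃` -/
abbrev Reg3 : Type (u + 1) := {c : Cardinal.{u} // c.IsRegular ∧ ℵ_ 3 ≤ c}

variable {Ω : Type u}

/-- membership in the product of the cardinals `E z` -/
def InPi (E : Ω → Reg3.{u}) (f : Ω → Ordinal.{u}) : Prop := ∀ z, f z < (E z).1.ord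

/-- `x` is `μ`-small: at most `μ` functions of the product dominate the product on `x`. -/
def Sm (E : Ω → Reg3.{u}) (μ : Cardinal.{u}) (x : Set Ω) : Prop :=
  ∃ (ι : Type u) (c : ι → Ω → Ordinal.{u}), #ι ≤ μ ∧ (∀ k, InPi E (c k)) ∧
    ∀ f, InPi E f → ∃ k, ∀ z ∈ x, f z ≤ c k z

/-- the least size of a dominating family on `x` -/
noncomputable def T (E : Ω → Reg3.{u}) (x : Set Ω) : Cardinal.{u} := sInf {μ | Sm E μ x}

theorem Reg3.pos (e : Reg3.{u}) : 0 < e.1.ord := e.2.1.ord_pos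

theorem Reg3.aleph2_lt (e : Reg3.{u}) : ℵ_ 2 < e.1 :=
  (aleph_lt_aleph.2 (by norm_num)).trans_le e.2.2

theorem Reg3.aleph1_lt (e : Reg3.{u}) : ℵ₁ < e.1 :=
  (aleph_lt_aleph.2 (by norm_num)).trans e.aleph2_lt

theorem Reg3.aleph0_lt (e : Reg3.{u}) : ℵ₀ < e.1 :=
  aleph0_lt_aleph_one.trans e.aleph1_lt

theorem Reg3.isSuccLimit (e : Reg3.{u}) : Order.IsSuccLimit e.1.ord :=
  isSuccLimit_ord e.2.1.aleph0_le

theorem Reg3.succ_lt (e : Reg3.{u}) {a : Ordinal.{u}} (h : a < e.1.ord) : a + 1 < e.1.ord := by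
  rw [← Order.succ_eq_add_one]
  exact e.isSuccLimit.succ_lt h

/-- suprema of few ordinals below a regular cardinal -/
theorem Reg3.iSup_lt (e : Reg3.{u}) {ι : Type u} (hι : #ι < e.1) (f : ι → Ordinal.{u})
    (hf : ∀ i, f i < e.1.ord) : ⨆ i, f i < e.1.ord :=
  Ordinal.iSup_lt_of_lt_cof (by rwa [e.2.1.cof_ord]) hf

/-- ordinals below `o` indexed by a type in the right universe -/
noncomputable def val (o : Ordinal.{u}) (k : o.ToType) : Ordinal.{u} := ((ToType.mk (o := o)).symm k).1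

theorem val_lt (o : Ordinal.{u}) (k : o.ToType) : val o k < o := ((ToType.mk (o := o)).symm k).2

theorem exists_val {o a : Ordinal.{u}} (h : a < o) : ∃ k : o.ToType, val o k = a :=
  ⟨ToType.mk (o := o) ⟨a, h⟩, by simp [val]⟩

theorem InPi.zero (E : Ω → Reg3.{u}) : InPi E fun _ => 0 := fun z => (E z).pos

theorem InPi.succ {E : Ω → Reg3.{u}} {f : Ω → Ordinal.{u}} (h : InPi E f) :
    InPi E fun z => f z + 1 := fun z => (E z).succ_lt (h z)

theorem InPi.max {E : Ω → Reg3.{u}} {f g : Ω → Ordinal.{u}} (hf : InPi E f) (hg : InPi E g) :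
    InPi E fun z => max (f z) (g z) := fun z => max_lt (hf z) (hg z)

theorem InPi.iSup {E : Ω → Reg3.{u}} {ι : Type u} (hι : #ι ≤ ℵ_ 2) (f : ι → Ω → Ordinal.{u})
    (hf : ∀ i, InPi E (f i)) : InPi E fun z => ⨆ i, f i z :=
  fun z => (E z).iSup_lt (hι.trans_lt (E z).aleph2_lt) _ fun i => hf i z

/-- cutting off a function -/
noncomputable def cut (E : Ω → Reg3.{u}) (f : Ω → Ordinal.{u}) : Ω → Ordinal.{u} :=
  open Classical in fun z => if f z < (E z).1.ord then f z else 0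

theorem cut_inPi (E : Ω → Reg3.{u}) (f : Ω → Ordinal.{u}) : InPi E (cut E f) := by
  intro z
  unfold cut
  split_ifs with h
  · exact h
  · exact (E z).pos

theorem cut_eq {E : Ω → Reg3.{u}} {f : Ω → Ordinal.{u}} {z : Ω} (h : f z < (E z).1.ord) :
    cut E f z = f z := by
  unfold cut
  rw [if_pos h]

theorem Sm.mono_card {E : Ω → Reg3.{u}} {μ ν : Cardinal.{u}} {x : Set Ω} (h : Sm E μ x)
    (hμ : μ ≤ ν) : Sm E ν x := by
  obtain ⟨ι, c, h1, h2, h3⟩ := h
  exact ⟨ι, c, h1.trans hμ, h2, h3⟩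

theorem Sm.mono {E : Ω → Reg3.{u}} {μ : Cardinal.{u}} {x y : Set Ω} (h : Sm E μ y)
    (hxy : x ⊆ y) : Sm E μ x := by
  obtain ⟨ι, c, h1, h2, h3⟩ := h
  refine ⟨ι, c, h1, h2, fun f hf => ?_⟩
  obtain ⟨k, hk⟩ := h3 f hf
  exact ⟨k, fun z hz => hk z (hxy hz)⟩

theorem Sm.empty (E : Ω → Reg3.{u}) {μ : Cardinal.{u}} (hμ : 1 ≤ μ) : Sm E μ ∅ := by
  refine ⟨PUnit, fun _ _ => 0, by simpa using hμ, fun _ => InPi.zero E, fun f _ => ⟨PUnit.unit, ?_⟩⟩
  intro z hz
  exact absurd hz (notMem_empty z)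

theorem Sm.union {E : Ω → Reg3.{u}} {μ : Cardinal.{u}} (hμ : ℵ₀ ≤ μ) {x y : Set Ω}
    (hx : Sm E μ x) (hy : Sm E μ y) : Sm E μ (x ∪ y) := by
  obtain ⟨ι, c, h1, h2, h3⟩ := hx
  obtain ⟨ι', c', h1', h2', h3'⟩ := hy
  refine ⟨ι × ι', fun k z => max (c k.1 z) (c' k.2 z), ?_, fun k => (h2 k.1).max (h2' k.2), ?_⟩
  · rw [mk_prod, Cardinal.lift_id, Cardinal.lift_id]
    exact (mul_le_mul' h1 h1').trans (mul_eq_self hμ).le
  · intro f hf
    obtain ⟨k, hk⟩ := h3 f hf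
    obtain ⟨k', hk'⟩ := h3' f hf
    refine ⟨(k, k'), fun z hz => ?_⟩
    rcases hz with hz | hz
    · exact (hk z hz).trans (le_max_left _ _)
    · exact (hk' z hz).trans (le_max_right _ _)

theorem Sm.iUnion {E : Ω → Reg3.{u}} {μ : Cardinal.{u}} (hμ : μ ^ ℵ₀ ≤ μ) {x : ℕ → Set Ω}
    (hx : ∀ n, Sm E μ (x n)) : Sm E μ (⋃ n, x n) := by
  choose ι c h1 h2 h3 using hx
  refine ⟨∀ n : ULift.{u} ℕ, ι n.down, fun k z => ⨆ n : ULift.{u} ℕ, c n.down (k n) z, ?_, ?_, ?_⟩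
  · rw [mk_pi]
    calc prod (fun i : ULift.{u} ℕ => #(ι i.down)) ≤ prod (fun _ : ULift.{u} ℕ => μ) :=
          prod_le_prod _ _ fun i => h1 _
      _ = μ ^ ℵ₀ := by simp
      _ ≤ μ := hμ
  · intro k
    exact InPi.iSup (E := E) (by simp)
      (fun (n : ULift.{u} ℕ) z => c n.down (k n) z) fun n => h2 _ _
  · intro f hf
    choose k hk using fun n => h3 n f hf
    refine ⟨fun n => k n.down, fun z hz => ?_⟩
    obtain ⟨n, hn⟩ := mem_iUnion.1 hz
    exact (hk n z hn).trans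
      (Ordinal.le_iSup (fun m : ULift.{u} ℕ => c m.down (k m.down) z) ⟨n⟩)

theorem Sm.singleton (E : Ω → Reg3.{u}) (z : Ω) : Sm E (E z).1 {z} := by
  classical
  refine ⟨(E z).1.ord.ToType, fun k w => if w = z then val _ k else 0, ?_, ?_, ?_⟩
  · simp
  · intro k w
    by_cases h : w = z
    · subst h
      simp only [if_true]
      exact val_lt _ k
    · simp only [h, if_false]
      exact (E w).pos
  · intro f hf
    obtain ⟨k, hk⟩ := exists_val (hf z)
    refine ⟨k, fun w hw => ?_⟩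
    rw [mem_singleton_iff.1 hw]
    simp [hk]

theorem exists_Sm (E : Ω → Reg3.{u}) (x : Set Ω) : ∃ μ, Sm E μ x := by
  refine ⟨_, ∀ z, (E z).1.ord.ToType, fun k z => val _ (k z), le_rfl, ?_, ?_⟩
  · intro k z
    exact val_lt _ (k z)
  · intro f hf
    choose k hk using fun z => exists_val (hf z)
    exact ⟨k, fun z _ => (hk z).ge⟩

theorem T_spec (E : Ω → Reg3.{u}) (x : Set Ω) : Sm E (T E x) x :=
  csInf_mem (s := {μ | Sm E μ x}) (exists_Sm E x)

theorem T_le {E : Ω → Reg3.{u}} {x : Set Ω} {μ : Cardinal.{u}} (h : Sm E μ x) : T E x ≤ μ :=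
  csInf_le' h

theorem not_Sm_of_lt {E : Ω → Reg3.{u}} {x : Set Ω} {μ : Cardinal.{u}} (h : μ < T E x) :
    ¬ Sm E μ x := fun h' => absurd (T_le h') (not_le.2 h)

theorem T_mono (E : Ω → Reg3.{u}) {x y : Set Ω} (h : x ⊆ y) : T E x ≤ T E y :=
  T_le ((T_spec E y).mono h)

theorem le_T {E : Ω → Reg3.{u}} {x : Set Ω} {z : Ω} (hz : z ∈ x) : (E z).1 ≤ T E x := by
  classical
  obtain ⟨ι, c, h1, h2, h3⟩ := T_spec E x
  by_contra hcon
  have hlt : #ι < (E z).1 := h1.trans_lt (not_le.1 hcon)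
  have h4 : ⨆ k, (c k z + 1) < (E z).1.ord :=
    (E z).iSup_lt hlt _ fun k => (E z).succ_lt (h2 k z)
  obtain ⟨k, hk⟩ := h3 (fun w => if w = z then ⨆ k, (c k z + 1) else 0) (by
    intro w
    by_cases h : w = z
    · subst h; simpa using h4
    · simp only [h, if_false]; exact (E w).pos)
  have h5 := hk z hz
  simp only [if_true] at h5
  have h6 : c k z + 1 ≤ ⨆ k, (c k z + 1) := Ordinal.le_iSup (fun k => c k z + 1) k
  exact absurd (h6.trans h5) (not_le.2 (lt_add_one _))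

theorem aleph3_le_T {E : Ω → Reg3.{u}} {x : Set Ω} (hx : x.Nonempty) : ℵ_ 3 ≤ T E x :=
  (E hx.choose).2.2.trans (le_T hx.choose_spec)

theorem Sm.countable {E : Ω → Reg3.{u}} {κ : Cardinal.{u}} (hκ : κ ^ ℵ₀ ≤ κ)
    (h1 : 1 ≤ κ) (hE : ∀ z, (E z).1 ≤ κ) {x : Set Ω} (hx : x.Countable) : Sm E κ x := by
  rcases x.eq_empty_or_nonempty with rfl | hne
  · exact Sm.empty E h1
  · obtain ⟨f, hf⟩ := hx.exists_eq_range hne
    have : x = ⋃ n, {f n} := by
      rw [hf]; ext z; simp [eq_comm]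
    rw [this]
    exact Sm.iUnion hκ fun n => (Sm.singleton E (f n)).mono_card (hE _)

/-- constant families -/
theorem Sm.const {E : Ω → Reg3.{u}} (hΩ : #Ω ≤ ℵ₁) (e : Reg3.{u}) {x : Set Ω}
    (hx : ∀ z ∈ x, E z = e) : Sm E e.1 x := by
  classical
  refine ⟨e.1.ord.ToType, fun k => cut E fun _ => val _ k,
    by simp, fun k => cut_inPi _ _, fun f hf => ?_⟩
  have h1 : ⨆ z : x, f z < e.1.ord := by
    apply e.iSup_lt
    · exact ((mk_set_le x).trans hΩ).trans_lt e.aleph1_lt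
    · intro z
      have := hf z
      rwa [hx z z.2] at this
  obtain ⟨k, hk⟩ := exists_val h1
  refine ⟨k, fun z hz => ?_⟩
  have h2 : cut E (fun _ => val _ k) z = val _ k := cut_eq (by rw [hk, hx z hz]; exact h1)
  change f z ≤ cut E (fun _ => val _ k) z
  rw [h2, hk]
  exact Ordinal.le_iSup (fun z : x => f z) ⟨z, hz⟩

/-- transport along an injective map -/
theorem Sm.comap {Ω' : Type u} {E : Ω → Reg3.{u}} {E' : Ω' → Reg3.{u}} {μ : Cardinal.{u}}
    {x : Set Ω} {x' : Set Ω'} (p : Ω → Ω') (hp : InjOn p x) (hE : ∀ a ∈ x, E a = E' (p a))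
    (hx : ∀ a ∈ x, p a ∈ x') (h : Sm E' μ x') : Sm E μ x := by
  classical
  obtain ⟨ι, c, h1, h2, h3⟩ := h
  refine ⟨ι, fun k => cut E fun a => c k (p a), h1, fun k => cut_inPi _ _, fun f hf => ?_⟩
  obtain ⟨k, hk⟩ := h3 (fun b => if h : ∃ a ∈ x, p a = b then f h.choose else 0) (by
    intro b
    by_cases h : ∃ a ∈ x, p a = b
    · simp only [h, dif_pos]
      have h4 := hf h.choose
      rw [hE _ h.choose_spec.1, h.choose_spec.2] at h4
      exact h4
    · simp only [h, dif_neg, not_false_eq_true]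
      exact (E' b).pos)
  refine ⟨k, fun a ha => ?_⟩
  have h4 := hk (p a) (hx a ha)
  have h5 : ∃ a' ∈ x, p a' = p a := ⟨a, ha, rfl⟩
  simp only [h5, dif_pos] at h4
  have h6 : h5.choose = a := hp h5.choose_spec.1 ha h5.choose_spec.2
  rw [h6] at h4
  change f a ≤ cut E (fun a => c k (p a)) a
  rw [cut_eq (by rw [hE a ha]; exact h2 k (p a))]
  exact h4

end Pool.Agent.Helper93.PCF
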