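import Mathlib
import Pool.Agent.Helper93.PCF.Basic

/-!
Scales, canonical values, objects and refinements: definitions, and the statement of the model
lemma.
-/

open Cardinal Ordinal Set

universe u

namespace Pool.Agent.Helper93.PCF

variable {Ω : Type u}

theorem isRegular_aleph3 : (ℵ_ 3 : Cardinal.{u}).IsRegular := by
  have h := isRegular_aleph_add_one.{u} 2
  have h2 : (2 : Ordinal.{u}) + 1 = 3 := by norm_num
  rwa [h2] at h

noncomputable instance : Inhabited Reg3.{u} := ⟨⟨ℵ_ 3, isRegular_aleph3, le_rfl⟩⟩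

/-- `T E x` as a regular cardinal (it is one when `x` is nonempty) -/
noncomputable def Tr (E : Ω → Reg3.{u}) (x : Set Ω) : Reg3.{u} :=
  open Classical in if h : (T E x).IsRegular ∧ ℵ_ 3 ≤ T E x then ⟨T E x, h⟩ else default

/-- scales on `x` -/
def IsScale (E : Ω → Reg3.{u}) (x : Set Ω) (u : Ordinal.{u} → Ω → Ordinal.{u}) : Prop :=
  (∀ ζ, InPi E (u ζ)) ∧
  (∀ ζ' ζ, ζ' < ζ → ζ < (T E x).ord → ∃ μ < T E x, Sm E μ {z ∈ x | u ζ z ≤ u ζ' z}) ∧
  (∀ f, InPi E f → ∃ ζ < (T E x).ord, ∀ z ∈ x, f z ≤ u ζ z)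

/-- the chosen scale on `x` -/
noncomputable def uu (E : Ω → Reg3.{u}) (x : Set Ω) : Ordinal.{u} → Ω → Ordinal.{u} :=
  open Classical in if h : ∃ u, IsScale E x u then h.choose else fun _ _ => 0

/-- `c` restricted to `ω₂` is strictly increasing, continuous and cofinal in `ζ`. -/
structure NormalTo (c : Ordinal.{u} → Ordinal.{u}) (ζ : Ordinal.{u}) : Prop where
  mono : ∀ i j, i < j → j < ω_ 2 → c i < c j
  cont : ∀ i < ω_ 2, Order.IsSuccLimit i → ∀ γ < c i, ∃ j < i, γ < c j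
  lt : ∀ i < ω_ 2, c i < ζ
  cof : ∀ γ < ζ, ∃ i < ω_ 2, γ < c i

/-- the canonical value at `z` belonging to `ζ` of cofinality `ω₂` -/
noncomputable def mm (E : Ω → Reg3.{u}) (x : Set Ω) (ζ : Ordinal.{u}) (z : Ω) : Ordinal.{u} :=
  sInf {γ | ∃ c, NormalTo c ζ ∧ ∀ i < ω_ 2, uu E x (c i) z ≤ γ}

/-- objects: a sequence of regular cardinals and a sequence of sets of indices -/
structure Obj (Ω : Type u) where
  /-- the cardinals -/
  E : Ω → Reg3.{u}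
  /-- the sets -/
  x : Ω → Set Ω

/-- one step of the decomposition -/
structure Refines (φ : Reg3.{u} → Ordinal.{u}) (o o' : Obj Ω) : Prop where
  E_eq : o'.E = o.E
  sub : ∀ ξ, o'.x ξ ⊆ o.x ξ
  lt : ∀ ξ, (o.x ξ).Nonempty → T o.E (o'.x ξ) < T o.E (o.x ξ)
  val : ∀ ξ, ∀ z ∈ o.x ξ, z ∉ o'.x ξ →
    φ (o.E z) = mm o.E (o.x ξ) (φ (Tr o.E (o.x ξ))) z

/-- the statement of the model lemma (histories are lists, newest object first) -/
def ModelLemma (Ω : Type u) : Prop :=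
  ∀ (o₀ : Obj Ω) (LC : List (Obj Ω) → Obj Ω) (H : List (Obj Ω) → Ω → Ordinal.{u}),
    (∀ h, InPi o₀.E (H h)) →
    ∃ (φ : Reg3.{u} → Ordinal.{u}) (S : Set (List (Obj Ω))),
      (∀ τ : Reg3.{u}, φ τ < τ.1.ord) ∧ [o₀] ∈ S ∧ (∀ h ∈ S, LC h :: h ∈ S) ∧
      (∀ h ∈ S, ∀ z, H h z < φ (o₀.E z)) ∧
      (∀ o h, o :: h ∈ S → ∃ o', o' :: o :: h ∈ S ∧ Refines φ o o')

/-- `κ`-many functions of the product have an upper bound up to a `κ`-small set -/
def Bounding (Ω : Type u) : Prop :=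
  ∀ (E : Ω → Reg3.{u}) (μ : Cardinal.{u}), ℵ₀ ≤ μ → ∀ {ι : Type u}, #ι ≤ μ →
    ∀ g : ι → Ω → Ordinal.{u}, (∀ i, InPi E (g i)) →
    ∃ h, InPi E h ∧ ∀ i, Sm E μ {z | h z < g i z}

end Pool.Agent.Helper93.PCF
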